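import Pool.Agent.H.MP_68f07c_an.Main

namespace Pool.Agent.Results.MP_68f07c_an.NotEquiv

open Finset Filter Topology Pool.Agent.H.MP_68f07c_an

def cspan {E : Type} [NormedAddCommGroup E] [NormedSpace ℝ E] (x : ℕ → E) : Submodule ℝ E :=
  (Submodule.span ℝ (Set.range x)).topologicalClosure

def Sums {E : Type} [NormedAddCommGroup E] [NormedSpace ℝ E] (x : ℕ → E) (a : ℕ → ℝ) (v : E) : Prop :=
  Tendsto (fun m => ∑ i ∈ range m, a i • x i) atTop (𝓝 v)

def Basic {E : Type} [NormedAddCommGroup E] [NormedSpace ℝ E] (x : ℕ → E) : Prop :=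
  ∀ v ∈ cspan x, ∃! a : ℕ → ℝ, Sums x a v

def Equivalent {E F : Type} [NormedAddCommGroup E] [NormedSpace ℝ E] [NormedAddCommGroup F]
    [NormedSpace ℝ F] (x : ℕ → E) (y : ℕ → F) : Prop :=
  ∀ a : ℕ → ℝ, (∃ v, Sums x a v) ↔ ∃ w, Sums y a w

theorem result : ∃ (E : Type) (_ : NormedAddCommGroup E) (_ : NormedSpace ℝ E) (_ : CompleteSpace E)
    (x : ℕ → E) (f : ℕ → E →L[ℝ] ℝ),
    (∀ i j, f i (x j) = if i = j then 1 else 0) ∧ Basic x ∧ Basic f ∧
    IsClosed {v : E | ∃ y ∈ cspan x, ∃ z, (∀ n, f n z = 0) ∧ v = y + z} ∧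
    ¬ Equivalent f fun n => (f n).comp (cspan x).subtypeL := by
  refine ⟨E, inferInstance, inferInstance, inferInstance, x, f, bi, basic x f bi 1 x_bound,
    basic f (fun i => ContinuousLinearMap.apply ℝ ℝ (x i))
      (fun i j => (bi j i).trans (by simp only [eq_comm])) 2 f_bound, ?_, fun h => ?_⟩
  · rw [show {v : E | ∃ y ∈ cspan x, ∃ z, (∀ n, f n z = 0) ∧ v = y + z} = (cspan x : Set E) from
      Set.ext fun v => ⟨fun ⟨y, hy, z, hz, e⟩ => by rw [e, total z hz, add_zero]; exact hy,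
        fun hv => ⟨v, hv, 0, fun n => map_zero _, (add_zero v).symm⟩⟩]
    exact isClosed_closure
  · obtain ⟨g, hg⟩ := (h _).2 (converge _ (fun _ => le_rfl) fun w =>
      Submodule.topologicalClosure_minimal _ (Submodule.span_le.2 (by rintro _ ⟨n, rfl⟩; rfl))
        p2.isClosed_ker w.2)
    exact diverge g hg

end Pool.Agent.Results.MP_68f07c_an.NotEquiv
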